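import Pool.Agent.W423.NI.Defs

/-!
# Project NI, part NONT: nondegeneracy in terms of `NonT`
-/

set_option autoImplicit false

namespace Pool.Agent.W864.NI

open MvPolynomial
open Pool.Agent.W428.MOT Pool.Agent.W749.NM Pool.Agent.W749.JI
open Pool.Agent.W423.NI

lemma ordI_iff {n k r : ℕ} (π : Fin k → Fin r) (m : Fin k → Fin n → ℕ) (u : Fin n → ℕ)
    (j : Fin k) : onFaceI π m (fun v => (u v : ℝ)) j ↔
      ∑ v, u v * m j v = ordI π m u (π j) := by
  unfold onFaceI ordI
  have : Nonempty {j' : Fin k // π j' = π j} := ⟨⟨j, rfl⟩⟩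
  have hle : (⨅ j' : {j' : Fin k // π j' = π j}, ∑ v, u v * m j'.1 v) ≤ ∑ v, u v * m j v :=
    ciInf_le (OrderBot.bddBelow _) (⟨j, rfl⟩ : {j' : Fin k // π j' = π j})
  have hcast : ∀ j', (∑ v, (u v : ℝ) * (m j' v : ℝ)) = ((∑ v, u v * m j' v : ℕ) : ℝ) := by
    intro j'
    push_cast
    rfl
  constructor
  · intro h
    refine le_antisymm (le_ciInf ?_) hle
    rintro ⟨j', hj'⟩
    have := h j' hj'
    simp only [hcast] at this
    exact_mod_cast this
  · intro h j' hj'
    simp only [hcast]
    have h2 : (⨅ j' : {j' : Fin k // π j' = π j}, ∑ v, u v * m j'.1 v) ≤ ∑ v, u v * m j' v :=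
      ciInf_le (OrderBot.bddBelow _) (⟨j', hj'⟩ : {j' : Fin k // π j' = π j})
    rw [← h] at h2
    exact_mod_cast h2

lemma tau_iff {n k r : ℕ} (π : Fin k → Fin r) (m : Fin k → Fin n → ℕ) (u : Fin n → ℕ) (N : ℕ)
    (j : Fin k) (hj : π j ∈ (tau π m u N).image π) :
    j ∈ tau π m u N ↔ onFaceI π m (fun v => (u v : ℝ)) j := by
  rw [ordI_iff]
  obtain ⟨j', hj', h⟩ := Finset.mem_image.1 hj
  have h2 := (Finset.mem_filter.1 hj').2.1
  rw [h] at h2
  unfold tau
  rw [Finset.mem_filter]
  exact ⟨fun h3 => h3.2.2, fun h3 => ⟨Finset.mem_univ _, h2, h3⟩⟩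

theorem nonT : Pool.Agent.W423.NI.TaskNonT := by
  classical
  intro n k r π m c hnd u N z hz h0 l hl hd
  have hbij : Function.Bijective (algebraMap ℂ (AlgebraicClosure ℂ)) :=
    IsAlgClosed.algebraMap_bijective_of_isIntegral
  set A := algebraMap ℂ (AlgebraicClosure ℂ) with hA
  choose z' hz' using fun v => hbij.2 (z v)
  choose l' hl' using fun i => hbij.2 (l i)
  by_contra hne
  push Not at hne
  obtain ⟨i0, hi0⟩ := hne
  set τ := tau π m u N with hτ
  set x : Fin n → ℂ := fun v => if ∃ j ∈ τ, m j v ≠ 0 then z' v else 1 with hx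
  set w : Fin n → ℝ := fun v => (u v : ℝ) with hw
  have hl0 : ∀ i, l' i ≠ 0 → i ∈ τ.image π := by
    intro i hi
    by_contra h
    apply hi
    apply hbij.1
    rw [hl', map_zero, hl i h]
  have hx0 : ∀ v, x v ≠ 0 := by
    intro v
    rw [hx]
    by_cases h : ∃ j ∈ τ, m j v ≠ 0
    · simp only [if_pos h]
      intro h1
      apply hz v h
      rw [← hz', h1, map_zero]
    · simp only [if_neg h]
      exact one_ne_zero
  have hpow : ∀ j, j ∈ τ → ∏ v, A (x v) ^ m j v = ∏ v, z v ^ m j v := by
    intro j hj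
    refine Finset.prod_congr rfl fun v _ => ?_
    by_cases h : m j v = 0
    · rw [h, pow_zero, pow_zero]
    · rw [hx]
      simp only [if_pos (show ∃ j ∈ τ, m j v ≠ 0 from ⟨j, hj, h⟩)]
      rw [hz']
  have hkey : ∀ i, i ∈ τ.image π → ∀ j, (π j = i ∧ onFaceI π m w j) ↔ (j ∈ τ ∧ π j = i) := by
    intro i hi j
    constructor
    · rintro ⟨h1, h2⟩
      exact ⟨(tau_iff π m u N j (by rw [h1]; exact hi)).2 h2, h1⟩
    · rintro ⟨h1, h2⟩
      exact ⟨h2, (tau_iff π m u N j (by rw [h2]; exact hi)).1 h1⟩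
  have hsum : ∀ i, i ∈ τ.image π → ∀ F : Fin k → ℂ, ∀ G : Fin k → AlgebraicClosure ℂ,
      (∀ j ∈ τ, A (F j) = G j) →
      A (∑ j, if π j = i ∧ onFaceI π m w j then F j else 0) =
        ∑ j ∈ τ, if π j = i then G j else 0 := by
    intro i hi F G hFG
    rw [map_sum, ← Finset.sum_filter_add_sum_filter_not Finset.univ (fun j => j ∈ τ)]
    rw [Finset.sum_eq_zero (s := Finset.univ.filter fun j => ¬ j ∈ τ), add_zero]
    · refine Finset.sum_congr ?_ fun j hj => ?_
      · ext j
        simp
      · by_cases h : π j = i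
        · rw [if_pos ((hkey i hi j).2 ⟨hj, h⟩), if_pos h, hFG j hj]
        · rw [if_neg (fun h1 => h h1.1), if_neg h, map_zero]
    · intro j hj
      rw [if_neg, map_zero]
      intro h1
      exact (Finset.mem_filter.1 hj).2 ((hkey i hi j).1 h1).1
  refine hnd w (Finset.univ.filter fun i => l' i ≠ 0) x l' ?_ hx0 ?_ ?_ ?_
  · refine ⟨i0, Finset.mem_filter.2 ⟨Finset.mem_univ _, fun h => hi0 ?_⟩⟩
    rw [← hl', h, map_zero]
  · intro i hi
    exact (Finset.mem_filter.1 hi).2
  · intro i hi
    have hi2 := hl0 i (Finset.mem_filter.1 hi).2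
    apply hbij.1
    rw [map_zero, ← h0 i hi2, hsum i hi2 _ (fun j => cb c j * ∏ v, z v ^ m j v)]
    · unfold gbar cI
      refine Finset.sum_congr rfl fun j _ => ?_
      by_cases h : π j = i
      · rw [if_pos h, if_pos h]
      · rw [if_neg h, if_neg h, zero_mul]
    · intro j hj
      rw [map_mul, map_prod]
      simp only [map_pow]
      rw [hpow j hj]
      rfl
  · intro v
    apply hbij.1
    rw [map_zero, map_sum]
    have h3 : ∀ i ∈ (Finset.univ.filter fun i => l' i ≠ 0), A (l' i *
        (∑ j, if π j = i ∧ onFaceI π m w j then c j * (m j v : ℂ) * ∏ v, x v ^ m j v else 0)) =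
        z v * (l i * dgbar m (cI π (cb c) i) τ v z) := by
      intro i hi
      have hi2 := hl0 i (Finset.mem_filter.1 hi).2
      rw [map_mul, hl', hsum i hi2 _
        (fun j => z v * (cb c j * ((m j v : AlgebraicClosure ℂ) *
          ∏ v', z v' ^ (m j v' - if v' = v then 1 else 0))))]
      · rw [← mul_assoc, mul_comm (z v), mul_assoc]
        congr 1
        unfold dgbar cI
        rw [Finset.mul_sum]
        refine Finset.sum_congr rfl fun j _ => ?_
        by_cases h : π j = i
        · rw [if_pos h, if_pos h]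
        · rw [if_neg h, if_neg h, zero_mul, mul_zero]
      · intro j hj
        rw [map_mul, map_mul, map_prod, map_natCast]
        simp only [map_pow]
        rw [hpow j hj]
        by_cases h : m j v = 0
        · rw [h]
          simp
        · have h3 : ∏ i', z i' ^ m j i' = z v * ∏ i', z i' ^ (m j i' - if i' = v then 1 else 0) := by
            rw [← Finset.mul_prod_erase Finset.univ (fun i' => z i' ^ m j i') (Finset.mem_univ v),
              ← Finset.mul_prod_erase Finset.univ
                (fun i' => z i' ^ (m j i' - if i' = v then 1 else 0)) (Finset.mem_univ v),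
              ← mul_assoc]
            congr 1
            · simp only [if_true]
              rw [← pow_succ', Nat.sub_add_cancel (Nat.pos_of_ne_zero h)]
            · refine Finset.prod_congr rfl fun i' hi' => ?_
              rw [if_neg (Finset.ne_of_mem_erase hi'), Nat.sub_zero]
          rw [h3]
          unfold cb
          ring
    rw [Finset.sum_congr rfl h3, ← Finset.mul_sum]
    have h4 : ∑ i ∈ (Finset.univ.filter fun i => l' i ≠ 0),
        l i * dgbar m (cI π (cb c) i) τ v z = 0 := by
      rw [← hd v]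
      refine Finset.sum_subset (Finset.filter_subset _ _) fun i _ hi => ?_
      have : l' i = 0 := by
        by_contra h
        exact hi (Finset.mem_filter.2 ⟨Finset.mem_univ _, h⟩)
      rw [← hl' i, this, map_zero, zero_mul]
    rw [h4, mul_zero]

end Pool.Agent.W864.NI
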